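import Pool.Agent.MP_f00251_lc.Iface3
import Pool.Agent.MP_f00251_lc.Iface
import Pool.Agent.Lib.helper82.CookLevin

-- ======== part 0: formerly Pool.Agent.MP_f00251_lc.Iface4
section MrgPart0

/-!
Statements about the clock word.
-/

set_option autoImplicit false

namespace Pool.Agent.MP_f00251_lc

open Equiv

/-- An optional transposition. -/
def sIf (b : Bool) (u v : Wr) : Perm Wr := if b then swap u v else 1

/-- The permutation given by the clock word. -/
def Gr.Bp (G : Gr) (od : Lt → Bool) : Perm Wr :=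
  pm od (crs G.secs G.post) * sIf (od (.rho 0)) (.m 0) (.m 1)

/-- At an open window the state of the clock is determined. -/
def ClockStmt : Prop :=
  ∀ G : Gr, GoodG G.n G.E → ∀ (od : Lt → Bool) (P : Perm Wr), (∀ j, P (.m j) = .m j) →
    (∀ j, j % 2 = 0 → P (.a j) = .a j) → G.Bp od * P = 1 → ∀ j < G.J, (G.sec j).conn od →
    (∀ i ≤ G.J, od (.rho i) = decide (i ≤ j) ∧ od (.rhp i) = decide (i ≤ j)) ∧
    ∀ i < G.J, od (.del i) = decide (i ≤ j) ∧ od (.dep i) = decide (i ≤ j) ∧
      ∀ k, G.act k i = true → od (.cm i k) = decide (i = j)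

/-- The permutation given by the clock word in its regular states. -/
def ProdStmt : Prop :=
  ∀ G : Gr, GoodG G.n G.E → ∀ (od : Lt → Bool) (α β : ℕ), β ≤ α → α ≤ β + 1 → β ≤ G.J →
    (∀ i ≤ G.J, od (.rho i) = decide (i < α) ∧ od (.rhp i) = decide (i < α)) →
    (∀ i < G.J, od (.del i) = decide (i < β) ∧ od (.dep i) = decide (i < β)) →
    (∀ i < G.J, ∀ k, G.act k i = true → od (.cm i k) = true → i + 1 = β ∧ α = β) →
    G.Bp od = sIf (G.act true (β - 1) && od (.cm (β - 1) true)) (G.aC (β - 1)) (G.sv true (β - 1)) *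
      sIf (G.act false (β - 1) && od (.cm (β - 1) false)) (G.aC (β - 1)) (G.sv false (β - 1))

/-- The window is open in the expected state. -/
def OpenStmt : Prop :=
  ∀ G : Gr, GoodG G.n G.E → ∀ (od : Lt → Bool), ∀ j < G.J, od (.rho (j + 1)) = false →
    od (.dep j) = true → (∀ k, G.act k j = true → od (.cm j k) = true) → (G.sec j).conn od

end Pool.Agent.MP_f00251_lc

end MrgPart0

-- ======== part 1: formerly Pool.Agent.MP_f00251_lc.Clock
section MrgPart1

/-!
The clock word: proofs of `ClockStmt`, `ProdStmt` and `OpenStmt`.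
-/

set_option autoImplicit false

namespace Pool.Agent.MP_f00251_lc

open Equiv

namespace Clock

theorem sIf_fix {b : Bool} {u v z : Wr} (h : b = true → z ≠ u ∧ z ≠ v) : sIf b u v z = z := by
  cases b
  · rfl
  · exact swap_apply_of_ne_of_ne (h rfl).1 (h rfl).2

variable (G : Gr) (od : Lt → Bool)

/-- The common crossing of kind `k` of the step `j` is present and odd. -/
def cc (j : ℕ) (k : Bool) : Bool := G.act k j && od (.cm j k)

/-- The permutation of the window part of a section. -/
def mid (j : ℕ) : Perm Wr :=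
  sIf (od (.dep j)) (.m (j + 1)) (G.aC j) * sIf (cc G od j true) (.m (j + 1)) (G.sv true j) *
    sIf (cc G od j false) (.m (j + 1)) (G.sv false j) *
    sIf (od (.rho (j + 1))) (.m (j + 1)) (.m (j + 2))

/-- The permutation of a section. -/
def bk (j : ℕ) : Perm Wr :=
  mid G od j * sIf (od (.rhp j)) (G.aP j) (.m (j + 1)) * sIf (od (.del j)) (G.aP j) (G.aC j)

/-- Prefix products. -/
def pre : ℕ → Perm Wr
  | 0 => sIf (od (.rho 0)) (.m 0) (.m 1)
  | i + 1 => bk G od i * pre i

theorem pm_mid (j : ℕ) : pm od (G.sec j).mid = mid G od j := by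
  cases h1 : G.act false j <;> cases h2 : G.act true j <;>
    simp [Gr.sec, mid, cc, sIf, pm_cons, h1, h2, List.filter, mul_assoc]

theorem pm_blk (j : ℕ) : pm od ((G.sec j).pre ++ (G.sec j).mid) = bk G od j := by
  rw [pm_append, pm_mid]
  simp [Gr.sec, bk, sIf, pm_cons, mul_assoc]

theorem pre_eq (i : ℕ) :
    pm od (((List.range i).map G.sec).flatMap (fun σ => σ.pre ++ σ.mid)) *
      sIf (od (.rho 0)) (.m 0) (.m 1) = pre G od i := by
  induction i with
  | zero => simp [pre]
  | succ i ih =>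
    rw [List.range_succ, List.map_append, List.flatMap_append, pm_append, mul_assoc, ih]
    simp only [List.map_cons, List.map_nil, List.flatMap_cons, List.flatMap_nil, List.append_nil,
      pm_blk, pre]

theorem Bp_eq : G.Bp od = sIf (od (.rhp G.J)) (G.aP G.J) (.m (G.J + 1)) * pre G od G.J := by
  rw [Gr.Bp, crs, pm_append, mul_assoc, Gr.secs, pre_eq]
  simp [Gr.post, pm_cons, sIf]

/-! ### Arithmetic of the indices -/

theorem rep_even {j : ℕ} (h : j % 2 = 0) : G.rep j = j := by
  unfold Gr.rep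
  rw [if_neg (by omega)]

theorem rep_mod (j : ℕ) : G.rep j % 2 = j % 2 := by
  unfold Gr.rep Gr.md Gr.q
  split_ifs <;> omega

theorem rep_ne (j : ℕ) : G.rep j ≠ G.rep (j + 2) := by
  unfold Gr.rep Gr.md Gr.q
  split_ifs <;> omega

theorem act_odd {k : Bool} {j : ℕ} (h : G.act k j = true) : j % 2 = 1 := by
  simp only [Gr.act, Gr.has, Bool.and_eq_true] at h
  have h1 := h.1
  have h2 : G.md j % 2 = j % 2 := by
    unfold Gr.md Gr.q
    split_ifs <;> omega
  split_ifs at h1 <;> simp only [decide_eq_true_eq] at h1 <;> omega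

theorem sv_ne (hG : GoodG G.n G.E) {j : ℕ} (h1 : G.act false j = true)
    (h2 : G.act true j = true) : G.sv false j ≠ G.sv true j := by
  simp only [Gr.act, Gr.has, Bool.and_eq_true] at h1 h2
  have a1 := h1.1
  have a2 := h2.1
  by_cases h : G.md j / 4 < G.e
  · simp only [Gr.sv, Gr.xv, h, if_true, Bool.false_eq_true, if_false, ne_eq, Wr.s.injEq]
    have : G.E.getD (G.md j / 4) (0, 0) ∈ G.E := by
      rw [List.getD_eq_getElem _ _ h]
      exact List.getElem_mem _
    exact (hG.ne _ this).symm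
  · simp only [h, if_false, Bool.false_eq_true, if_true, decide_eq_true_eq] at a1 a2
    omega

theorem J_odd : G.J % 2 = 1 := by
  unfold Gr.J
  omega

theorem aP_succ (j : ℕ) : G.aP (j + 1) = G.aC j := by simp [Gr.aP, Gr.aC]

theorem aP_zero : G.aP 0 = .m 0 := rfl

theorem aP_ne_aC (j : ℕ) : G.aP j ≠ G.aC j := by
  cases j with
  | zero => simp [Gr.aP, Gr.aC]
  | succ j =>
    rw [aP_succ]
    simp only [Gr.aC, ne_eq, Wr.a.injEq]
    intro e
    have h1 := rep_mod G j
    have h2 := rep_mod G (j + 1)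
    omega

theorem aP_ne_aC' (j : ℕ) : G.aP j ≠ G.aC (j + 1) := by
  cases j with
  | zero => simp [Gr.aP, Gr.aC]
  | succ j =>
    rw [aP_succ]
    simp only [Gr.aC, ne_eq, Wr.a.injEq]
    exact rep_ne G j

theorem aP_ne_m (j i : ℕ) : G.aP j ≠ .m (i + 1) := by
  unfold Gr.aP
  split_ifs <;> simp

theorem aP_ne_sv (j i : ℕ) (k : Bool) : G.aP j ≠ G.sv k i := by
  unfold Gr.aP Gr.sv
  split_ifs <;> simp

theorem aC_ne_m (j i : ℕ) : G.aC j ≠ .m i := by simp [Gr.aC]

theorem aC_ne_sv (j i : ℕ) (k : Bool) : G.aC j ≠ G.sv k i := by simp [Gr.aC, Gr.sv]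

theorem sv_ne_m (j i : ℕ) (k : Bool) : G.sv k j ≠ .m i := by simp [Gr.sv]

theorem cc_odd {j : ℕ} {k : Bool} (h : cc G od j k = true) : j % 2 = 1 := by
  simp only [cc, Bool.and_eq_true] at h
  exact act_odd G h.1

theorem cc_ne (hG : GoodG G.n G.E) {j : ℕ} (h1 : cc G od j false = true)
    (h2 : cc G od j true = true) : G.sv false j ≠ G.sv true j := by
  simp only [cc, Bool.and_eq_true] at h1 h2
  exact sv_ne G hG h1.1 h2.1

/-! ### The action of a section on single wires -/

theorem mid_fix {j : ℕ} {z : Wr} (h1 : z ≠ G.aC j) (h2 : z ≠ .m (j + 1)) (h3 : z ≠ .m (j + 2))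
    (h4 : ∀ k, cc G od j k = true → z ≠ G.sv k j) : mid G od j z = z := by
  simp only [mid, Perm.mul_apply]
  rw [sIf_fix (fun _ => ⟨h2, h3⟩), sIf_fix (fun h => ⟨h2, h4 _ h⟩),
    sIf_fix (fun h => ⟨h2, h4 _ h⟩), sIf_fix (fun _ => ⟨h2, h1⟩)]

theorem bk_fix {j : ℕ} {z : Wr} (h0 : z ≠ G.aP j) (h1 : z ≠ G.aC j) (h2 : z ≠ .m (j + 1))
    (h3 : z ≠ .m (j + 2)) (h4 : ∀ k, cc G od j k = true → z ≠ G.sv k j) : bk G od j z = z := by
  simp only [bk, Perm.mul_apply]
  rw [sIf_fix (fun _ => ⟨h0, h1⟩), sIf_fix (fun _ => ⟨h0, h2⟩), mid_fix G od h1 h2 h3 h4]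

/-- The end of the strand which is on the wire `m (j + 1)` after the crossing `rho (j + 1)`. -/
def tl (j : ℕ) : Wr :=
  if cc G od j false then G.sv false j else if cc G od j true then G.sv true j
  else if od (.dep j) then G.aC j else .m (j + 1)

theorem tail_eq (hG : GoodG G.n G.E) (j : ℕ) :
    sIf (od (.dep j)) (.m (j + 1)) (G.aC j) (sIf (cc G od j true) (.m (j + 1)) (G.sv true j)
      (sIf (cc G od j false) (.m (j + 1)) (G.sv false j) (.m (j + 1)))) = tl G od j := by
  have e1 := fun k => sv_ne_m G j (j + 1) k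
  have e2 := fun k => (aC_ne_sv G j j k).symm
  unfold tl
  cases h1 : cc G od j false
  · cases h2 : cc G od j true
    · cases od (.dep j) <;> simp [sIf]
    · simp only [sIf, Bool.false_eq_true, if_false, if_true, Perm.one_apply, swap_apply_left]
      exact sIf_fix (fun _ => ⟨e1 _, e2 _⟩)
  · have : sIf true (.m (j + 1)) (G.sv false j) (.m (j + 1)) = G.sv false j := by simp [sIf]
    rw [this, sIf_fix (fun h => ⟨e1 _, cc_ne G od hG h1 h⟩), sIf_fix (fun _ => ⟨e1 _, e2 _⟩)]
    rfl

theorem mid_m1 (hG : GoodG G.n G.E) (j : ℕ) :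
    mid G od j (.m (j + 1)) = if od (.rho (j + 1)) then .m (j + 2) else tl G od j := by
  simp only [mid, Perm.mul_apply]
  cases od (.rho (j + 1))
  · exact tail_eq G od hG j
  · have : sIf true (.m (j + 1)) (.m (j + 2)) (.m (j + 1)) = .m (j + 2) := by simp [sIf]
    rw [this, sIf_fix (fun _ => ⟨by simp, (sv_ne_m G _ _ _).symm⟩),
      sIf_fix (fun _ => ⟨by simp, (sv_ne_m G _ _ _).symm⟩),
      sIf_fix (fun _ => ⟨by simp, (aC_ne_m G _ _).symm⟩)]
    rfl

theorem mid_m2 (hG : GoodG G.n G.E) (j : ℕ) :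
    mid G od j (.m (j + 2)) = if od (.rho (j + 1)) then tl G od j else .m (j + 2) := by
  simp only [mid, Perm.mul_apply]
  cases od (.rho (j + 1))
  · have : sIf false (.m (j + 1)) (.m (j + 2)) (.m (j + 2)) = .m (j + 2) := rfl
    rw [this, sIf_fix (fun _ => ⟨by simp, (sv_ne_m G _ _ _).symm⟩),
      sIf_fix (fun _ => ⟨by simp, (sv_ne_m G _ _ _).symm⟩),
      sIf_fix (fun _ => ⟨by simp, (aC_ne_m G _ _).symm⟩)]
    rfl
  · have : sIf true (.m (j + 1)) (.m (j + 2)) (.m (j + 2)) = .m (j + 1) := by simp [sIf]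
    rw [this]
    exact tail_eq G od hG j

theorem mid_aC (j : ℕ) :
    mid G od j (G.aC j) = if od (.dep j) then .m (j + 1) else G.aC j := by
  simp only [mid, Perm.mul_apply]
  rw [sIf_fix (fun _ => ⟨aC_ne_m G _ _, aC_ne_m G _ _⟩),
    sIf_fix (fun _ => ⟨aC_ne_m G _ _, aC_ne_sv G _ _ _⟩),
    sIf_fix (fun _ => ⟨aC_ne_m G _ _, aC_ne_sv G _ _ _⟩)]
  cases od (.dep j) <;> simp [sIf]

theorem mid_aP (j : ℕ) : mid G od j (G.aP j) = G.aP j :=
  mid_fix G od (aP_ne_aC G j) (aP_ne_m G _ _) (aP_ne_m G _ _) (fun _ _ => aP_ne_sv G _ _ _)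

theorem bk_m2 (j : ℕ) : bk G od j (.m (j + 2)) = mid G od j (.m (j + 2)) := by
  simp only [bk, Perm.mul_apply]
  rw [sIf_fix (fun _ => ⟨(aP_ne_m G _ _).symm, (aC_ne_m G _ _).symm⟩),
    sIf_fix (fun _ => ⟨(aP_ne_m G _ _).symm, by simp⟩)]

theorem bk_m1 (j : ℕ) :
    bk G od j (.m (j + 1)) = if od (.rhp j) then G.aP j else mid G od j (.m (j + 1)) := by
  simp only [bk, Perm.mul_apply]
  rw [sIf_fix (fun _ => ⟨(aP_ne_m G _ _).symm, (aC_ne_m G _ _).symm⟩)]
  cases od (.rhp j) <;> simp [sIf, mid_aP]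

theorem bk_aP (j : ℕ) : bk G od j (G.aP j) =
    if od (.del j) then mid G od j (G.aC j)
    else if od (.rhp j) then mid G od j (.m (j + 1)) else G.aP j := by
  simp only [bk, Perm.mul_apply]
  cases od (.del j)
  · cases od (.rhp j) <;> simp [sIf, mid_aP]
  · have : sIf true (G.aP j) (G.aC j) (G.aP j) = G.aC j := by simp [sIf]
    rw [this, sIf_fix (fun _ => ⟨(aP_ne_aC G j).symm, aC_ne_m G _ _⟩)]
    rfl

theorem bk_aC (j : ℕ) : bk G od j (G.aC j) =
    if od (.del j) then (if od (.rhp j) then mid G od j (.m (j + 1)) else G.aP j)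
    else mid G od j (G.aC j) := by
  simp only [bk, Perm.mul_apply]
  cases od (.del j)
  · have : sIf false (G.aP j) (G.aC j) (G.aC j) = G.aC j := rfl
    rw [this, sIf_fix (fun _ => ⟨(aP_ne_aC G j).symm, aC_ne_m G _ _⟩)]
    rfl
  · cases od (.rhp j) <;> simp [sIf, mid_aP]

/-! ### Localisation -/

theorem pre_fix {z : Wr} (h0 : z ≠ .m 0) (h1 : z ≠ .m 1) {a : ℕ}
    (h : ∀ i < a, bk G od i z = z) : pre G od a z = z := by
  induction a with
  | zero => exact sIf_fix (fun _ => ⟨h0, h1⟩)
  | succ a ih => rw [pre, Perm.mul_apply, ih (fun i hi => h i (by omega)), h a (by omega)]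

theorem pre_back {w z : Wr} {b c : ℕ} (hbc : b ≤ c) (h : ∀ i, b ≤ i → i < c → bk G od i z = z)
    (hc : pre G od c w = z) : pre G od b w = z := by
  induction c, hbc using Nat.le_induction with
  | base => exact hc
  | succ c hbc ih =>
    refine ih (fun i h1 h2 => h i h1 (by omega)) ((bk G od c).injective ?_)
    rw [h c hbc (by omega)]
    exact hc

theorem Bp_back {z : Wr} (hz : G.Bp od z = z) (h1 : z ≠ G.aP G.J) (h2 : z ≠ .m (G.J + 1))
    {b : ℕ} (hb : b ≤ G.J) (h : ∀ i, b ≤ i → i < G.J → bk G od i z = z) : pre G od b z = z := by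
  refine pre_back G od hb h ((sIf (od (.rhp G.J)) (G.aP G.J) (.m (G.J + 1))).injective ?_)
  rw [sIf_fix (z := z) (fun _ => ⟨h1, h2⟩)]
  rw [Bp_eq] at hz
  exact hz

theorem bk_fix_m {i k : ℕ} (h1 : k ≠ i) (h2 : k ≠ i + 1) : bk G od i (.m (k + 1)) = .m (k + 1) :=
  bk_fix G od (aP_ne_m G _ _).symm (aC_ne_m G _ _).symm (by simpa using h1) (by simpa using h2)
    (fun _ _ => (sv_ne_m G _ _ _).symm)

theorem aC_even {k : ℕ} (hk : k % 2 = 0) (i : ℕ) : G.aC k = G.aC i ↔ k = i := by
  refine ⟨fun h => ?_, fun h => by rw [h]⟩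
  simp only [Gr.aC, Wr.a.injEq] at h
  have h1 := rep_mod G i
  rw [rep_even G hk] at h
  have h2 : i % 2 = 0 := by omega
  rwa [rep_even G h2] at h

theorem aC_ne_aP {k i : ℕ} (hk : k % 2 = 0) (h : k + 1 ≠ i) : G.aC k ≠ G.aP i := by
  cases i with
  | zero => exact aC_ne_m G _ _
  | succ i =>
    rw [aP_succ, ne_eq, aC_even G hk]
    omega

theorem bk_fix_a {i k : ℕ} (hk : k % 2 = 0) (h1 : k ≠ i) (h2 : k + 1 ≠ i) :
    bk G od i (G.aC k) = G.aC k :=
  bk_fix G od (aC_ne_aP G hk h2) (by rwa [ne_eq, aC_even G hk]) (aC_ne_m G _ _) (aC_ne_m G _ _)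
    (fun _ _ => aC_ne_sv G _ _ _)

/-- The crossings after the prefix `j` which matter for the wires of the step. -/
def nx (j : ℕ) : Perm Wr :=
  if j < G.J then bk G od j else sIf (od (.rhp G.J)) (G.aP G.J) (.m (G.J + 1))

theorem nx_fix {j : ℕ} (hj : j ≤ G.J) {z : Wr} (h0 : z ≠ G.aP j) (h1 : z ≠ G.aC j)
    (h2 : z ≠ .m (j + 1)) (h3 : z ≠ .m (j + 2)) (h4 : ∀ k, cc G od j k = true → z ≠ G.sv k j) :
    nx G od j z = z := by
  unfold nx
  split_ifs with h
  · exact bk_fix G od h0 h1 h2 h3 h4
  · obtain rfl : j = G.J := by omega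
    exact sIf_fix (fun _ => ⟨h0, h2⟩)

theorem loc_m (hm : ∀ j, G.Bp od (.m j) = .m j) {j : ℕ} (hj : j ≤ G.J) :
    nx G od j (pre G od j (.m (j + 1))) = .m (j + 1) := by
  unfold nx
  split_ifs with h
  · exact Bp_back G od (hm (j + 1)) (aP_ne_m G _ _).symm (by simp; omega) (b := j + 1) h
      (fun i h1 _ => bk_fix_m G od (by omega) (by omega))
  · obtain rfl : j = G.J := by omega
    have := hm (G.J + 1)
    rwa [Bp_eq] at this

theorem loc_a (ha : ∀ j, j % 2 = 0 → G.Bp od (.a j) = .a j) {j : ℕ} (hj : j < G.J)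
    (he : j % 2 = 0) : nx G od (j + 1) (bk G od j (G.aC j)) = G.aC j := by
  have h1 : pre G od j (G.aC j) = G.aC j := pre_fix G od (aC_ne_m G _ _) (aC_ne_m G _ _)
    (fun i hi => bk_fix_a G od he (by omega) (by omega))
  have h2 : G.Bp od (G.aC j) = G.aC j := by
    unfold Gr.aC
    rw [rep_even G he]
    exact ha j he
  have h3 : pre G od (j + 1) (G.aC j) = bk G od j (G.aC j) := by rw [pre, Perm.mul_apply, h1]
  rw [← h3]
  unfold nx
  split_ifs with h
  · exact Bp_back G od h2 (aC_ne_aP G he (by omega)) (aC_ne_m G _ _) (b := j + 2) h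
      (fun i h1 _ => bk_fix_a G od he (by omega) (by omega))
  · have e : j + 1 = G.J := by omega
    rw [Bp_eq] at h2
    rw [e]
    exact h2

theorem pre_m_succ (hG : GoodG G.n G.E) (i : ℕ) : pre G od (i + 1) (.m (i + 2)) =
    if od (.rho (i + 1)) then tl G od i else .m (i + 2) := by
  rw [pre, Perm.mul_apply, pre_fix G od (by simp) (by simp)
    (fun k hk => bk_fix_m G od (k := i + 1) (by omega) (by omega)), bk_m2, mid_m2 G od hG]

theorem mid_m1_iff (hG : GoodG G.n G.E) {j : ℕ} (h : mid G od j (.m (j + 1)) = .m (j + 1)) :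
    od (.rho (j + 1)) = false ∧ (∀ k, cc G od j k = false) ∧ od (.dep j) = false := by
  rw [mid_m1 G od hG, tl] at h
  split_ifs at h with h1 h2 h3 h4
  · simp at h
  · exact absurd h (sv_ne_m G _ _ _)
  · exact absurd h (sv_ne_m G _ _ _)
  · exact absurd h (aC_ne_m G _ _)
  · refine ⟨by simpa using h1, fun k => ?_, by simpa using h4⟩
    cases k
    · simpa using h2
    · simpa using h3

/-! ### The strands of the wires `m` -/

theorem pre_of_not (hG : GoodG G.n G.E) {j : ℕ} (h : od (.rho j) = false) :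
    pre G od j (.m (j + 1)) = .m (j + 1) := by
  cases j with
  | zero => simp [pre, h, sIf]
  | succ i => rw [pre_m_succ G od hG, h]; rfl

theorem factA (hG : GoodG G.n G.E) (hm : ∀ j, G.Bp od (.m j) = .m j) {j : ℕ} (hj : j ≤ G.J)
    (h : od (.rho j) = false) : od (.rhp j) = false ∧ (j < G.J →
      od (.rho (j + 1)) = false ∧ (∀ k, cc G od j k = false) ∧ od (.dep j) = false) := by
  have h1 := loc_m G od hm hj
  rw [pre_of_not G od hG h] at h1
  unfold nx at h1
  split_ifs at h1 with h2
  · rw [bk_m1] at h1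
    split_ifs at h1 with h3
    · exact absurd h1 (aP_ne_m G _ _)
    · exact ⟨by simpa using h3, fun _ => mid_m1_iff G od hG h1⟩
  · obtain rfl : j = G.J := by omega
    refine ⟨?_, fun h => absurd h h2⟩
    cases h3 : od (.rhp G.J)
    · rfl
    · simp only [h3, sIf, if_true, swap_apply_right] at h1
      exact absurd h1 (aP_ne_m G _ _)

theorem factB (hG : GoodG G.n G.E) (hm : ∀ j, G.Bp od (.m j) = .m j) {i : ℕ} (hi : i < G.J)
    (h : od (.rho (i + 1)) = true) : od (.dep i) = true ∧ ∀ k, cc G od i k = false := by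
  have h1 := loc_m G od hm (j := i + 1) hi
  rw [pre_m_succ G od hG, h, if_pos rfl] at h1
  have h2 : ∀ k, cc G od i k = true → nx G od (i + 1) (G.sv k i) = G.sv k i := fun k hk =>
    nx_fix G od hi (aP_ne_sv G _ _ _).symm (aC_ne_sv G _ _ _).symm (sv_ne_m G _ _ _)
      (sv_ne_m G _ _ _) (fun k' hk' => by
        have := cc_odd G od hk
        have := cc_odd G od hk'
        omega)
  unfold tl at h1
  split_ifs at h1 with h3 h4 h5
  · rw [h2 _ h3] at h1
    exact absurd h1 (sv_ne_m G _ _ _)
  · rw [h2 _ h4] at h1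
    exact absurd h1 (sv_ne_m G _ _ _)
  · refine ⟨h5, fun k => ?_⟩
    cases k
    · simpa using h3
    · simpa using h4
  · rw [nx_fix G od hi (aP_ne_m G _ _).symm (aC_ne_m G _ _).symm (by simp) (by simp)
      (fun _ _ => (sv_ne_m G _ _ _).symm)] at h1
    simp at h1

theorem pre_of_rho (hG : GoodG G.n G.E) (hm : ∀ j, G.Bp od (.m j) = .m j) {j : ℕ} (hj : j ≤ G.J)
    (h : od (.rho j) = true) : pre G od j (.m (j + 1)) = G.aP j := by
  cases j with
  | zero => simp [pre, h, sIf, aP_zero]
  | succ i =>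
    obtain ⟨h1, h2⟩ := factB G od hG hm hj h
    rw [pre_m_succ G od hG, h, tl, h1, h2, h2, aP_succ]
    rfl

theorem factC (hG : GoodG G.n G.E) (hm : ∀ j, G.Bp od (.m j) = .m j) {j : ℕ} (hj : j < G.J)
    (h : od (.rho j) = true) : (od (.del j) = true ∧ od (.dep j) = true) ∨
      ((∀ k, cc G od j k = false) ∧ od (.dep j) = false) := by
  have h1 := loc_m G od hm hj.le
  rw [pre_of_rho G od hG hm hj.le h, nx, if_pos hj, bk_aP, mid_aC] at h1
  split_ifs at h1 with h2 h3 h4
  · exact Or.inl ⟨h2, h3⟩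
  · exact absurd h1 (aC_ne_m G _ _)
  · exact Or.inr (mid_m1_iff G od hG h1).2
  · exact absurd h1 (aP_ne_m G _ _)

theorem conn_facts (hG : GoodG G.n G.E) (hm : ∀ j, G.Bp od (.m j) = .m j) {j : ℕ} (hj : j < G.J)
    (hc : (G.sec j).conn od) : od (.dep j) = true ∧ od (.rho (j + 1)) = false ∧
      ∀ k, G.act k j = true → od (.cm j k) = true := by
  have key : ∀ k, cc G od j k = true → od (.dep j) = true ∧ od (.rho (j + 1)) = false := by
    intro k hk
    constructor
    · cases h : od (.rho j)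
      · simp [((factA G od hG hm hj.le h).2 hj).2.1 k] at hk
      · rcases factC G od hG hm hj h with h1 | h1
        · exact h1.2
        · simp [h1.1 k] at hk
    · cases h : od (.rho (j + 1))
      · rfl
      · simp [(factB G od hG hm hj h).2 k] at hk
  unfold Sec.conn at hc
  rw [pm_mid] at hc
  cases h1 : G.act false j <;> cases h2 : G.act true j
  · simp only [Gr.sec, h1, h2, Bool.and_self, Bool.false_eq_true, if_false] at hc
    rw [mid_m1 G od hG, tl] at hc
    split_ifs at hc with h3 h4 h5 h6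
    · exact absurd hc.symm (aC_ne_m G _ _)
    · simp [cc, h1] at h4
    · simp [cc, h2] at h5
    · refine ⟨h6, by simpa using h3, fun k hk => ?_⟩
      cases k <;> simp_all
    · exact absurd hc.symm (aC_ne_m G _ _)
  · simp only [Gr.sec, h1, h2, Bool.false_and, Bool.false_eq_true, if_false, if_true] at hc
    rw [mid_m1 G od hG, tl] at hc
    split_ifs at hc with h3 h4 h5 h6
    · exact absurd hc.symm (sv_ne_m G _ _ _)
    · simp [cc, h1] at h4
    · refine ⟨(key _ h5).1, (key _ h5).2, fun k hk => ?_⟩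
      cases k <;> simp_all [cc]
    · exact absurd hc (aC_ne_sv G _ _ _)
    · exact absurd hc.symm (sv_ne_m G _ _ _)
  · simp only [Gr.sec, h1, h2, Bool.and_false, Bool.false_eq_true, if_false, if_true] at hc
    rw [mid_m1 G od hG, tl] at hc
    split_ifs at hc with h3 h4 h5 h6
    · exact absurd hc.symm (sv_ne_m G _ _ _)
    · refine ⟨(key _ h4).1, (key _ h4).2, fun k hk => ?_⟩
      cases k <;> simp_all [cc]
    · simp [cc, h2] at h5
    · exact absurd hc (aC_ne_sv G _ _ _)
    · exact absurd hc.symm (sv_ne_m G _ _ _)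
  · simp only [Gr.sec, h1, h2, Bool.and_self, if_true] at hc
    have hne := sv_ne G hG h1 h2
    have h3 : cc G od j false = true := by
      by_contra h3
      rw [mid_fix G od (aC_ne_sv G _ _ _).symm (sv_ne_m G _ _ _) (sv_ne_m G _ _ _) (fun k hk => by
        cases k
        · exact absurd hk h3
        · exact hne)] at hc
      exact hne hc
    have h4 : cc G od j true = true := by
      by_contra h4
      have : mid G od j (G.sv true j) = G.sv true j :=
        mid_fix G od (aC_ne_sv G _ _ _).symm (sv_ne_m G _ _ _) (sv_ne_m G _ _ _) (fun k hk => by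
          cases k
          · exact hne.symm
          · exact absurd hk h4)
      exact hne ((mid G od j).injective (hc.trans this.symm))
    refine ⟨(key _ h3).1, (key _ h3).2, fun k hk => ?_⟩
    cases k <;> simp_all [cc]

/-! ### The strands of the wires `a` -/

theorem cc_even {j : ℕ} (h : j % 2 = 0) (k : Bool) : cc G od j k = false := by
  cases h1 : cc G od j k
  · rfl
  · have := cc_odd G od h1
    omega

theorem nx_aP {i : ℕ} (hi : i < G.J) : nx G od (i + 1) (G.aP i) = G.aP i := by
  refine nx_fix G od hi (by rw [aP_succ]; exact aP_ne_aC G i) (aP_ne_aC' G i) (aP_ne_m G _ _)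
    (aP_ne_m G _ _) (fun _ _ => aP_ne_sv G _ _ _)

theorem factE (ha : ∀ j, j % 2 = 0 → G.Bp od (.a j) = .a j) {i : ℕ} (hi : i < G.J)
    (he : i % 2 = 0) (h : od (.del i) = true) : od (.rhp i) = true := by
  have h1 := loc_a G od ha hi he
  by_contra h2
  rw [bk_aC, if_pos h, if_neg h2, nx_aP G od hi] at h1
  exact aP_ne_aC G i h1

theorem factF (ha : ∀ j, j % 2 = 0 → G.Bp od (.a j) = .a j) {i : ℕ} (hi : i + 1 < G.J)
    (he : i % 2 = 0) (h : bk G od i (G.aC i) = G.aC i) : od (.del (i + 1)) = false := by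
  have h1 := loc_a G od ha (by omega) he
  by_contra h2
  rw [h, nx, if_pos hi, ← aP_succ, bk_aP, if_pos (by simpa using h2), mid_aC] at h1
  split_ifs at h1
  · exact aP_ne_m G _ _ h1.symm
  · exact aP_ne_aC G _ h1.symm

theorem factG (hG : GoodG G.n G.E) (ha : ∀ j, j % 2 = 0 → G.Bp od (.a j) = .a j) {i : ℕ}
    (hi : i + 1 < G.J) (he : i % 2 = 0) (h : bk G od i (G.aC i) = .m (i + 2)) :
    od (.rhp (i + 1)) = true := by
  have h1 := loc_a G od ha (by omega) he
  by_contra h2
  rw [h, nx, if_pos hi, bk_m1, if_neg h2, mid_m1 G od hG, tl] at h1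
  split_ifs at h1
  · exact aC_ne_m G _ _ h1.symm
  · exact aC_ne_sv G _ _ _ h1.symm
  · exact aC_ne_sv G _ _ _ h1.symm
  · rw [← aP_succ G i] at h1
    exact aP_ne_aC G _ h1.symm
  · exact aC_ne_m G _ _ h1.symm

end Clock

open Clock

theorem clockStmt : ClockStmt := by
  intro G hG od P hPm hPa hP j hj hc
  have hfix : ∀ z, P z = z → G.Bp od z = z := fun z hz => by
    have := congrArg (fun f : Perm Wr => f z) hP
    simpa [hz] using this
  have hm : ∀ j, G.Bp od (.m j) = .m j := fun j => hfix _ (hPm j)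
  have ha : ∀ j, j % 2 = 0 → G.Bp od (.a j) = .a j := fun j h => hfix _ (hPa j h)
  obtain ⟨c1, c2, c3⟩ := conn_facts G od hG hm hj hc
  have dn : ∀ d i, i + d = j → od (.rho i) = true ∧ od (.dep i) = true := by
    intro d
    induction d with
    | zero =>
      intro i hi
      obtain rfl : i = j := by omega
      refine ⟨?_, c1⟩
      by_contra h
      simp [((factA G od hG hm hj.le (by simpa using h)).2 hj).2.2] at c1
    | succ d ih =>
      intro i hi
      have h1 := (ih (i + 1) (by omega)).1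
      refine ⟨?_, (factB G od hG hm (by omega) h1).1⟩
      by_contra h
      simp [((factA G od hG hm (j := i) (by omega) (by simpa using h)).2 (by omega)).1] at h1
  have r1 : ∀ i ≤ j, od (.rho i) = true := fun i hi => (dn (j - i) i (by omega)).1
  have p1 : ∀ i ≤ j, od (.dep i) = true := fun i hi => (dn (j - i) i (by omega)).2
  have d1 : ∀ i ≤ j, od (.del i) = true := fun i hi => by
    rcases factC G od hG hm (j := i) (by omega) (r1 i hi) with h | h
    · exact h.1
    · simp [p1 i hi] at h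
  have k1 : ∀ i < j, ∀ k, cc G od i k = false := fun i hi =>
    (factB G od hG hm (by omega) (r1 (i + 1) hi)).2
  have r2 : ∀ i, j < i → i ≤ G.J → od (.rho i) = false := by
    intro i hi
    induction i, hi using Nat.le_induction with
    | base => exact fun _ => c2
    | succ i hi ih => exact fun h => ((factA G od hG hm (by omega) (ih (by omega))).2 h).1
  have h2 : ∀ i, j < i → i ≤ G.J → od (.rhp i) = false := fun i h1 h2 =>
    (factA G od hG hm h2 (r2 i h1 h2)).1
  have p2 : ∀ i, j < i → i < G.J → (∀ k, cc G od i k = false) ∧ od (.dep i) = false :=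
    fun i h1 h2 => ((factA G od hG hm h2.le (r2 i h1 h2.le)).2 h2).2
  have h1e : ∀ i ≤ j, i % 2 = 0 → od (.rhp i) = true := fun i hi he =>
    factE G od ha (by omega) he (d1 i hi)
  have h1 : ∀ i ≤ j, od (.rhp i) = true := by
    intro i hi
    rcases Nat.mod_two_eq_zero_or_one i with he | he
    · exact h1e i hi he
    · obtain ⟨l, rfl⟩ : ∃ l, i = l + 1 := ⟨i - 1, by omega⟩
      refine factG G od hG ha (by omega) (by omega) ?_
      rw [bk_aC, if_pos (d1 l (by omega)), if_pos (h1e l (by omega) (by omega)), mid_m1 G od hG,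
        if_pos (r1 _ hi)]
  have d2e : ∀ i, j < i → i < G.J → i % 2 = 0 → od (.del i) = false := by
    intro i hi hJ he
    by_contra h
    have := factE G od ha hJ he (by simpa using h)
    simp [h2 i hi hJ.le] at this
  have d2 : ∀ i, j < i → i < G.J → od (.del i) = false := by
    intro i hi hJ
    rcases Nat.mod_two_eq_zero_or_one i with he | he
    · exact d2e i hi hJ he
    · obtain ⟨l, rfl⟩ : ∃ l, i = l + 1 := ⟨i - 1, by omega⟩
      have hl : l % 2 = 0 := by omega
      refine factF G od ha hJ hl ?_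
      rcases Nat.lt_or_ge j l with h | h
      · rw [bk_aC, d2e l h (by omega) hl, mid_aC, (p2 l h (by omega)).2]
        rfl
      · obtain rfl : l = j := by omega
        rw [bk_aC, if_pos (d1 l le_rfl), if_pos (h1 l le_rfl), mid_m1 G od hG, c2, tl,
          cc_even G od hl, cc_even G od hl, c1]
        rfl
  refine ⟨fun i hi => ?_, fun i hi => ?_⟩
  · rcases le_or_gt i j with h | h
    · simp [h, r1 i h, h1 i h]
    · simp [not_le.2 h, r2 i h hi, h2 i h hi]
  · rcases lt_trichotomy i j with h | rfl | h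
    · refine ⟨by simp [h.le, d1 i h.le], by simp [h.le, p1 i h.le], fun k hk => ?_⟩
      have := k1 i h k
      simp only [cc, hk, Bool.true_and] at this
      simp [this, h.ne]
    · exact ⟨by simp [d1 i le_rfl], by simp [c1], fun k hk => by simp [c3 k hk]⟩
    · refine ⟨by simp [not_le.2 h, d2 i h hi], by simp [not_le.2 h, (p2 i h hi).2],
        fun k hk => ?_⟩
      have := (p2 i h hi).1 k
      simp only [cc, hk, Bool.true_and] at this
      simp [this, h.ne']

theorem openStmt : OpenStmt := by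
  intro G hG od j _ h1 h2 h3
  unfold Sec.conn
  rw [pm_mid]
  cases a1 : G.act false j <;> cases a2 : G.act true j
  · simp [Gr.sec, a1, a2, mid_m1 G od hG, h1, tl, cc, h2]
  · simp [Gr.sec, a1, a2, mid_m1 G od hG, h1, tl, cc, h3 _ a2]
  · simp [Gr.sec, a1, a2, mid_m1 G od hG, h1, tl, cc, h3 _ a1]
  · simp only [Gr.sec, a1, a2, Bool.and_self, if_true, mid, Perm.mul_apply, h1, cc, h3 _ a1,
      h3 _ a2]
    have : sIf true (.m (j + 1)) (G.sv true j) (sIf true (.m (j + 1)) (G.sv false j)
        (sIf false (.m (j + 1)) (.m (j + 2)) (G.sv false j))) = G.sv true j := by simp [sIf]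
    rw [this]
    exact sIf_fix (fun _ => ⟨sv_ne_m G _ _ _, (aC_ne_sv G _ _ _).symm⟩)

theorem Clock.conj_sIf {b : Bool} {u v w : Wr} (h1 : w ≠ u) (h2 : w ≠ v) :
    swap u v * sIf b u w * swap u v = sIf b v w := by
  cases b
  · simp [sIf]
  · have := swap_apply_apply (swap u v) u w
    rw [swap_apply_left, swap_apply_of_ne_of_ne h1 h2, swap_inv] at this
    exact this.symm

theorem prodStmt : ProdStmt := by
  intro G _ od α β h1 h2 h3 hr hd hc
  change _ = sIf (cc G od (β - 1) true) _ _ * sIf (cc G od (β - 1) false) _ _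
  have hJ := J_odd G
  have hcc : ∀ i < G.J, ¬ (i + 1 = β ∧ α = β) → ∀ k, cc G od i k = false := by
    intro i hi h k
    by_contra h'
    simp only [cc, Bool.not_eq_false, Bool.and_eq_true] at h'
    exact h (hc i hi k h'.1 h'.2)
  have hone : ¬ (β - 1 + 1 = β ∧ α = β) →
      sIf (cc G od (β - 1) true) (G.aC (β - 1)) (G.sv true (β - 1)) *
        sIf (cc G od (β - 1) false) (G.aC (β - 1)) (G.sv false (β - 1)) = 1 := fun h => by
    simp [hcc (β - 1) (by omega) h, sIf]
  have key : ∀ i ≤ G.J, pre G od i = if i < α then swap (G.aP i) (.m (i + 1)) else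
      sIf (cc G od (β - 1) true) (G.aC (β - 1)) (G.sv true (β - 1)) *
        sIf (cc G od (β - 1) false) (G.aC (β - 1)) (G.sv false (β - 1)) := by
    intro i
    induction i with
    | zero =>
      intro hi
      rw [pre, (hr 0 hi).1]
      split_ifs with h
      · simp [sIf, h, aP_zero]
      · rw [hone (by omega)]
        simp [sIf, h]
    | succ i ih =>
      intro hi
      have e : swap (G.aP i) (.m (i + 1)) * swap (G.aP i) (G.aC i) * swap (G.aP i) (.m (i + 1)) =
          swap (.m (i + 1)) (G.aC i) :=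
        conj_sIf (b := true) (aP_ne_aC G i).symm (aC_ne_m G _ _)
      rw [pre, ih (by omega), bk, mid, (hr i (by omega)).2, (hr (i + 1) hi).1, (hd i hi).1,
        (hd i hi).2]
      rcases lt_trichotomy (i + 1) α with h | h | h
      · have a1 : i < α := by omega
        have a2 : i < β := by omega
        rw [hcc i hi (by omega), hcc i hi (by omega)]
        simp only [a1, a2, h, decide_true, if_true, sIf, Bool.false_eq_true, if_false, mul_one]
        rw [mul_assoc, mul_assoc, ← mul_assoc (swap (G.aP i) (.m (i + 1))), e, aP_succ]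
        exact conj_sIf (b := true) (by simp) (aC_ne_m G _ _).symm
      · have a1 : i < α := by omega
        have a3 : ¬ i + 1 < α := by omega
        rcases Nat.lt_or_ge i β with a2 | a2
        · obtain rfl : β = i + 1 := by omega
          simp only [a1, a2, a3, decide_true, decide_false, if_true, if_false,
            Nat.add_sub_cancel]
          rw [← conj_sIf (b := cc G od i true) (u := .m (i + 1)) (sv_ne_m G _ _ _)
            (aC_ne_sv G _ _ _).symm, ← conj_sIf (b := cc G od i false) (u := .m (i + 1))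
            (sv_ne_m G _ _ _) (aC_ne_sv G _ _ _).symm, ← e]
          simp only [sIf, if_true, Bool.false_eq_true, if_false, mul_one]
          rw [e]
          simp only [mul_assoc, swap_mul_self_mul]
          simp only [← mul_assoc, ← e]
        · rw [hcc i hi (by omega), hcc i hi (by omega), hone (by omega)]
          simp [a1, a3, not_lt.2 a2, sIf]
      · have a1 : ¬ i < α := by omega
        have a2 : ¬ i < β := by omega
        have a3 : ¬ i + 1 < α := by omega
        rw [hcc i hi (by omega), hcc i hi (by omega)]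
        simp [a1, a2, a3, sIf]
  rw [Bp_eq, key _ le_rfl, (hr _ le_rfl).2]
  split_ifs with h
  · rw [hone (by omega)]
    simp [sIf, h]
  · simp [sIf, h]

end Pool.Agent.MP_f00251_lc

end MrgPart1

-- ======== part 2: formerly Pool.Agent.MP_f00251_lc.Src.Div
section MrgPart2

/-!
Division of natural numbers in polynomial time.
-/

set_option autoImplicit false

namespace Pool.Agent.MP_f00251_lc

open Pool.Agent.PolyT Pool.Agent.H82 N487b59b3

theorem div_step (n d : ℕ) (hd : 0 < d) (b : Bool) :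
    (2 * n + b.toNat) / d =
      bif ltB (2 * n + b.toNat) ((2 * (n / d) + 1) * d) then 2 * (n / d) else 2 * (n / d) + 1 := by
  have h1 := Nat.div_add_mod n d
  have h2 := Nat.mod_lt n hd
  have h3 : b.toNat ≤ 1 := Bool.toNat_le b
  generalize n / d = q at *
  generalize n % d = r at *
  cases h : ltB (2 * n + b.toNat) ((2 * q + 1) * d)
  · rw [ltB_false_iff] at h
    rw [cond_false]
    exact Nat.div_eq_of_lt_le h (by nlinarith)
  · rw [ltB_iff] at h
    rw [cond_true]
    exact Nat.div_eq_of_lt_le (by nlinarith) h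

/-- One round of long division. -/
def divStep (d : ℕ) (b : Bool) (s : ℕ × ℕ) : ℕ × ℕ :=
  (2 * s.1 + bif b then 1 else 0,
    bif ltB (2 * s.1 + bif b then 1 else 0) ((2 * s.2 + 1) * d) then 2 * s.2 else 2 * s.2 + 1)

theorem foldr_divStep (d : ℕ) (hd : 0 < d) (l : List Bool) :
    l.foldr (divStep d) (0, 0) = (ofBits l, ofBits l / d) := by
  induction l with
  | nil => simp
  | cons b l ih =>
    rw [List.foldr_cons, ih, ofBits_cons, div_step _ _ hd]
    cases b <;> rfl

@[fun_prop] theorem p_div {α : Type} [N487b59b3 α] {f g : α → ℕ} (hf : PolyT.Poly f)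
    (hg : PolyT.Poly g) : PolyT.Poly (fun a => f a / g a) := by
  have h1 : PolyT.Poly (fun a => (f a).bits.foldr (divStep (g a - 1 + 1)) (0, 0)) := by
    refine PolyT.Poly.foldr (f := fun a => divStep (g a - 1 + 1)) (by unfold divStep; fun_prop) hf.bits
      (p_const _) (((Bd.const 3).mul hf.bd).add (Bd.const 1)) fun a n => ?_
    rw [foldr_divStep _ (Nat.add_one_pos _), length_enc_pair]
    have b1 := length_enc_nat_le (ofBits_lt ((f a).bits.drop n))
    have b2 := length_enc_nat_mono (Nat.div_le_self (ofBits ((f a).bits.drop n)) (g a - 1 + 1))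
    have b3 : ((f a).bits.drop n).length ≤ (bitEncode (f a)).length := by rw [enc_nat]; simp
    simp only at b1 b2 b3 ⊢
    omega
  refine PolyT.Poly.congr (f := fun a => bif eqB (g a) 0 then 0
    else ((f a).bits.foldr (divStep (g a - 1 + 1)) (0, 0)).2) (by fun_prop) fun a => ?_
  rw [foldr_divStep _ (Nat.add_one_pos _), ofBits_bits]
  cases h : eqB (g a) 0
  · rw [eqB_false_iff] at h
    rw [cond_false, Nat.sub_add_cancel (Nat.one_le_iff_ne_zero.2 h)]
  · rw [eqB_iff] at h
    simp [h]

/-- Repeated division. -/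
def divRep {β : Type} (l : List β) (z d : ℕ) : ℕ := l.foldl (fun z _ => z / d) z

theorem divRep_eq {β : Type} (l : List β) (z d : ℕ) : divRep l z d = z / d ^ l.length := by
  unfold divRep
  induction l generalizing z with
  | nil => simp
  | cons x l ih => rw [List.foldl_cons, ih, Nat.div_div_eq_div_mul, List.length_cons, pow_succ']

@[fun_prop] theorem p_divRep {α β : Type} [N487b59b3 α] [N487b59b3 β] {l : α → List β}
    {f g : α → ℕ} (hl : PolyT.Poly l) (hf : PolyT.Poly f) (hg : PolyT.Poly g) :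
    PolyT.Poly (fun a => divRep (l a) (f a) (g a)) :=
  PolyT.Poly.foldl (f := fun a z (_ : β) => z / g a) (by fun_prop) hl hf hf.bd fun a n => by
    have := divRep_eq ((l a).take n) (f a) (g a)
    unfold divRep at this
    rw [this]
    exact length_enc_nat_mono (Nat.div_le_self _ _)

@[fun_prop] theorem p_ofBits {α : Type} [N487b59b3 α] {l : α → List Bool} (hl : PolyT.Poly l) :
    PolyT.Poly (fun a => ofBits (l a)) := hl.ofBits

theorem ofBits_true {β : Type} (l : List β) :
    ofBits (l.map fun _ => true) + 1 = 2 ^ l.length := by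
  induction l with
  | nil => rfl
  | cons x l ih =>
    rw [List.map_cons, ofBits_cons, List.length_cons, pow_succ, ← ih, Bool.toNat_true]
    ring

end Pool.Agent.MP_f00251_lc

end MrgPart2

-- ======== part 3: formerly Pool.Agent.MP_f00251_lc.Src.Graph
section MrgPart3

/-!
From groups of options to independent sets of a graph with clones.
-/

set_option autoImplicit false

namespace Pool.Agent.MP_f00251_lc.Src

open Pool.Agent.PolyT Pool.Agent.H82 N487b59b3 Finset

theorem card_image_eq {ι A : Type} [DecidableEq ι] [DecidableEq A] (s : Finset ι) (c : ι → A)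
    (I : Finset A) : (s.powerset.filter fun X => X.image c = I).card =
      ∏ a ∈ I, (2 ^ (s.filter fun x => c x = a).card - 1) := by
  induction I using Finset.induction_on with
  | empty =>
    rw [prod_empty, card_eq_one]
    exact ⟨∅, by ext X; simp only [mem_filter, mem_powerset, image_eq_empty, mem_singleton]; aesop⟩
  | insert a I ha ih =>
    rw [prod_insert ha, ← ih, ← card_powerset, ← card_erase_of_mem (empty_mem_powerset _),
      ← card_product]
    refine card_nbij' (fun X => (X.filter fun x => c x = a, X.filter fun x => c x ≠ a))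
      (fun p => p.1 ∪ p.2) ?_ ?_ ?_ ?_
    · intro X hX
      simp only [coe_filter, mem_powerset, Set.mem_ofPred_eq] at hX
      obtain ⟨h1, h2⟩ := hX
      simp only [coe_product, Set.mem_prod, mem_coe, mem_erase, mem_powerset, mem_filter]
      refine ⟨⟨?_, filter_subset_filter _ h1⟩, (filter_subset _ _).trans h1, ?_⟩
      · obtain ⟨x, hx, hxa⟩ := mem_image.1 (h2 ▸ mem_insert_self a I)
        exact ne_empty_of_mem (mem_filter.2 ⟨hx, hxa⟩)
      · rw [← erase_insert ha, ← h2]
        ext b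
        simp only [mem_image, mem_filter, mem_erase]
        constructor
        · rintro ⟨x, ⟨hx, h⟩, rfl⟩; exact ⟨h, x, hx, rfl⟩
        · rintro ⟨h, x, hx, rfl⟩; exact ⟨x, ⟨hx, h⟩, rfl⟩
    · rintro ⟨Y, Z⟩ h
      simp only [coe_product, Set.mem_prod, mem_coe, mem_erase, mem_powerset, mem_filter] at h
      obtain ⟨⟨h1, h2⟩, h3, h4⟩ := h
      simp only [coe_filter, mem_powerset, Set.mem_ofPred_eq]
      refine ⟨union_subset (h2.trans (filter_subset _ _)) h3, ?_⟩
      rw [image_union, h4, insert_eq]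
      congr 1
      obtain ⟨y, hy⟩ := nonempty_iff_ne_empty.2 h1
      refine eq_singleton_iff_unique_mem.2 ⟨mem_image.2 ⟨y, hy, (mem_filter.1 (h2 hy)).2⟩, ?_⟩
      intro b hb
      obtain ⟨x, hx, rfl⟩ := mem_image.1 hb
      exact (mem_filter.1 (h2 hx)).2
    · intro X _
      exact filter_union_filter_not_eq _ X
    · rintro ⟨Y, Z⟩ h
      simp only [coe_product, Set.mem_prod, mem_coe, mem_erase, mem_powerset, mem_filter] at h
      obtain ⟨⟨-, h2⟩, -, h4⟩ := h
      have hY : ∀ y ∈ Y, c y = a := fun y hy => (mem_filter.1 (h2 hy)).2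
      have hZ : ∀ z ∈ Z, c z ≠ a := fun z hz h => ha (h4 ▸ h ▸ mem_image_of_mem c hz)
      simp only [filter_union, Prod.mk.injEq]
      rw [filter_true_of_mem hY, filter_false_of_mem hZ, filter_true_of_mem hZ,
        filter_false_of_mem fun y hy => not_not.2 (hY y hy)]
      simp

/-- An option: the name of its group and a list of pairs (variable, value). -/
abbrev Op : Type := ℕ × List (ℕ × ℕ)

/-- Two lists give different values to some variable. -/
def inc (o o' : List (ℕ × ℕ)) : Bool :=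
  o.any fun p => o'.any fun q => eqB p.1 q.1 && !eqB p.2 q.2

/-- Two options exclude each other. -/
def bad (a b : Op) : Bool := (eqB a.1 b.1 && !eqB a b) || inc a.2 b.2

theorem inc_false {o o' : List (ℕ × ℕ)} :
    inc o o' = false ↔ ∀ p ∈ o, ∀ q ∈ o', p.1 = q.1 → p.2 = q.2 := by
  simp only [inc, List.any_eq_false, List.any_eq_true, Bool.and_eq_true, eqB_iff,
    Bool.not_eq_true', eqB_false_iff, not_exists, not_and, not_not]

theorem bad_false {a b : Op} : bad a b = false ↔ (a.1 = b.1 → a = b) ∧ inc a.2 b.2 = false := by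
  simp [bad]

/-- The consistent options, without repetition. -/
def vs (L : List Op) : List Op := (L.filter fun a => !inc a.2 a.2).dedup

/-- The groups. -/
def gs (L : List Op) : List ℕ := (L.map fun a => a.1).dedup

/-- A list whose length is the number of clones. -/
def kk (L : List Op) : List ℕ := idx (vs L) ++ [0, 0, 0, 0, 0]

/-- The clones. -/
def cl (L : List Op) : List Op := (kk L).flatMap fun _ => vs L

/-- The option of a clone. -/
def pr (L : List Op) (x : ℕ) : Op := (cl L).getD x (0, [])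

/-- The vertices. -/
def UU (L : List Op) : List ℕ := 0 :: idx (cl L)

/-- The edges. -/
def EE (L : List Op) : List (ℕ × ℕ) :=
  (idx (cl L)).flatMap fun x => (x, (cl L).length) ::
    ((idx (cl L)).filter fun y => bad (pr L x) (pr L y)).map fun y => (x, y)

/-- The number of nonempty sets of clones of one option. -/
def MM (L : List Op) : ℕ := ofBits ((kk L).map fun _ => true)

/-- Recovering the number of selections. -/
def hh (L : List Op) (z : ℕ) : ℕ := divRep (gs L) z (MM L)

/-- The options of a list of vertices. -/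
def JJ (L : List Op) (X : List ℕ) : List Op :=
  ((X.filter fun x => ltB x (cl L).length).map fun x => pr L x).dedup

/-- The test for a selection. -/
def ac (L : List Op) (X : List ℕ) : Bool :=
  (JJ L X).all (fun a => (JJ L X).all fun b => !bad a b) && eqB (JJ L X).length (gs L).length

section poly

variable {α : Type} [N487b59b3 α] {L : α → List Op}

@[fun_prop] theorem p_inc {f g : α → List (ℕ × ℕ)} (hf : PolyT.Poly f) (hg : PolyT.Poly g) :
    PolyT.Poly fun a => inc (f a) (g a) := by unfold inc; fun_prop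

@[fun_prop] theorem p_bad {f g : α → Op} (hf : PolyT.Poly f) (hg : PolyT.Poly g) :
    PolyT.Poly fun a => bad (f a) (g a) := by unfold bad; fun_prop

@[fun_prop] theorem p_vs (h : PolyT.Poly L) : PolyT.Poly fun a => vs (L a) := by
  unfold vs; fun_prop

@[fun_prop] theorem p_gs (h : PolyT.Poly L) : PolyT.Poly fun a => gs (L a) := by
  unfold gs; fun_prop

@[fun_prop] theorem p_kk (h : PolyT.Poly L) : PolyT.Poly fun a => kk (L a) := by
  unfold kk; fun_prop

@[fun_prop] theorem p_cl (h : PolyT.Poly L) : PolyT.Poly fun a => cl (L a) := by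
  unfold cl; fun_prop

@[fun_prop] theorem p_pr (h : PolyT.Poly L) {f : α → ℕ} (hf : PolyT.Poly f) :
    PolyT.Poly fun a => pr (L a) (f a) := by
  unfold pr; fun_prop

theorem p_UU (h : PolyT.Poly L) : PolyT.Poly fun a => UU (L a) := by
  unfold UU; fun_prop

theorem p_EE (h : PolyT.Poly L) : PolyT.Poly fun a => EE (L a) := by
  unfold EE; fun_prop

theorem p_hh (h : PolyT.Poly L) {f : α → ℕ} (hf : PolyT.Poly f) :
    PolyT.Poly fun a => hh (L a) (f a) := by
  unfold hh MM; fun_prop

@[fun_prop] theorem p_JJ (h : PolyT.Poly L) {f : α → List ℕ} (hf : PolyT.Poly f) :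
    PolyT.Poly fun a => JJ (L a) (f a) := by
  unfold JJ; fun_prop

theorem p_ac (h : PolyT.Poly L) {f : α → List ℕ} (hf : PolyT.Poly f) :
    PolyT.Poly fun a => ac (L a) (f a) := by
  unfold ac; fun_prop

end poly

variable (L : List Op)

/-- The sets of options that do not exclude each other. -/
def Ind : Finset (Finset Op) :=
  (vs L).toFinset.powerset.filter fun I => ∀ a ∈ I, ∀ b ∈ I, bad a b = false

/-- The selections. -/
def Sel : Finset (Finset Op) := (Ind L).filter fun I => I.card = (gs L).length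

theorem mem_vs {L : List Op} {a : Op} : a ∈ vs L ↔ a ∈ L ∧ inc a.2 a.2 = false := by simp [vs]

theorem mem_Ind {L : List Op} {I : Finset Op} :
    I ∈ Ind L ↔ (∀ a ∈ I, a ∈ vs L) ∧ ∀ a ∈ I, ∀ b ∈ I, bad a b = false := by
  simp only [Ind, mem_filter, mem_powerset, subset_iff, List.mem_toFinset]

theorem image_fst_subset {I : Finset Op} (h : I ∈ Ind L) :
    I.image (fun a => a.1) ⊆ (gs L).toFinset ∧ (I.image fun a => a.1).card = I.card := by
  rw [mem_Ind] at h
  refine ⟨fun g hg => ?_, card_image_of_injOn fun a ha b hb e => (bad_false.1 (h.2 a ha b hb)).1 e⟩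
  obtain ⟨a, ha, rfl⟩ := mem_image.1 hg
  simp only [gs, List.mem_toFinset, List.mem_dedup, List.mem_map]
  exact ⟨a, (mem_vs.1 (h.1 a ha)).1, rfl⟩

theorem card_gs : (gs L).toFinset.card = (gs L).length :=
  List.toFinset_card_of_nodup (List.nodup_dedup _)

theorem card_le_of_Ind {I : Finset Op} (h : I ∈ Ind L) : I.card ≤ (gs L).length := by
  rw [← (image_fst_subset L h).2, ← card_gs]
  exact card_le_card (image_fst_subset L h).1

theorem pr_mem {x : ℕ} (h : x < (cl L).length) : pr L x ∈ vs L := by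
  have : pr L x ∈ cl L := by
    rw [pr, List.getD_eq_getElem _ _ h]; exact List.getElem_mem h
  obtain ⟨_, -, h⟩ := List.mem_flatMap.1 this
  exact h

theorem card_fiber {A : Type} [DecidableEq A] [BEq A] [LawfulBEq A] (l : List A) (d a : A) :
    ((range l.length).filter fun x => l.getD x d = a).card = l.count a := by
  induction l using List.reverseRecOn with
  | nil => simp
  | append_singleton l b ih =>
    rw [List.length_append, List.length_singleton, range_add_one, filter_insert, List.count_append,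
      ← ih, filter_congr (q := fun x => l.getD x d = a) fun x hx => by
        rw [List.getD_append _ _ _ _ (mem_range.1 hx)]]
    rw [List.getD_append_right _ _ _ _ le_rfl]
    by_cases h : b = a
    · rw [if_pos (by simpa using h), card_insert_of_notMem (by simp)]; simp [h]
    · rw [if_neg (by simpa using h)]; simp [h]

theorem fiber_cl {a : Op} (h : a ∈ vs L) :
    2 ^ ((range (cl L).length).filter fun x => pr L x = a).card - 1 = MM L := by
  have h1 : (cl L).count a = (kk L).length := by
    unfold cl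
    induction kk L with
    | nil => simp
    | cons x l ih =>
      rw [List.flatMap_cons, List.count_append, ih,
        List.count_eq_one_of_mem (l := vs L) (List.nodup_dedup _) h, List.length_cons, add_comm]
  unfold pr
  rw [card_fiber, h1, ← ofBits_true, MM, Nat.add_sub_cancel]

theorem card_pre (S : Finset (Finset Op)) (hS : S ⊆ Ind L) :
    ((range (cl L).length).powerset.filter fun X => X.image (pr L) ∈ S).card =
      ∑ I ∈ S, MM L ^ I.card := by
  refine (card_eq_sum_card_fiberwise (f := fun X : Finset ℕ => X.image (pr L)) (t := S)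
    (fun X hX => (mem_filter.1 hX).2)).trans (sum_congr rfl fun I hI => ?_)
  rw [filter_filter, filter_congr (q := fun X => X.image (pr L) = I) fun X _ =>
    ⟨fun h => h.2, fun h => ⟨by subst h; exact hI, h⟩⟩, card_image_eq, ← prod_const]
  exact prod_congr rfl fun a ha => fiber_cl L ((mem_Ind.1 (hS hI)).1 a ha)

theorem mem_EE {e : ℕ × ℕ} : e ∈ EE L ↔ e.1 < (cl L).length ∧
    (e.2 = (cl L).length ∨ e.2 < (cl L).length ∧ bad (pr L e.1) (pr L e.2) = true) := by
  obtain ⟨x, y⟩ := e
  simp only [EE, List.mem_flatMap, mem_idx, List.mem_cons, Prod.mk.injEq, List.mem_map,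
    List.mem_filter]
  constructor
  · rintro ⟨x, hx, ⟨rfl, rfl⟩ | ⟨y, hy, rfl, rfl⟩⟩
    · exact ⟨hx, Or.inl rfl⟩
    · exact ⟨hx, Or.inr hy⟩
  · rintro ⟨hx, rfl | hy⟩
    · exact ⟨x, hx, Or.inl ⟨rfl, rfl⟩⟩
    · exact ⟨x, hx, Or.inr ⟨y, hy, rfl, rfl⟩⟩

theorem length_UU : (UU L).length = (cl L).length + 1 := by simp [UU]

theorem good (h : vs L ≠ []) : GoodG (UU L).length (EE L) := by
  have h0 : 0 < (cl L).length := by
    obtain ⟨a, ha⟩ := List.exists_mem_of_ne_nil _ h
    exact List.length_pos_of_mem (a := a) (List.mem_flatMap.2 ⟨0, by simp [kk], ha⟩)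
  rw [length_UU]
  refine ⟨fun e he => ?_, fun e he => ?_, fun x hx => ?_⟩
  · rw [mem_EE] at he; omega
  · rw [mem_EE] at he
    obtain ⟨h1, h2 | ⟨-, h2⟩⟩ := he
    · omega
    · intro h3
      rw [← h3, bad_false.2 ⟨fun _ => rfl, (mem_vs.1 (pr_mem L h1)).2⟩] at h2
      cases h2
  · by_cases h1 : x < (cl L).length
    · exact ⟨(x, (cl L).length), (mem_EE L).2 ⟨h1, Or.inl rfl⟩, Or.inl rfl⟩
    · exact ⟨(0, (cl L).length), (mem_EE L).2 ⟨h0, Or.inl rfl⟩, Or.inr (by simp only; omega)⟩

theorem IS_eq : IS (UU L).length (EE L) = insert {(cl L).length}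
    ((range (cl L).length).powerset.filter fun X => X.image (pr L) ∈ Ind L) := by
  ext X
  simp only [IS, length_UU, mem_filter, mem_powerset, mem_insert, mem_Ind, subset_iff, mem_range,
    forall_mem_image]
  constructor
  · rintro ⟨h1, h2⟩
    by_cases hn : (cl L).length ∈ X
    · refine Or.inl (eq_singleton_iff_unique_mem.2 ⟨hn, fun x hx => ?_⟩)
      by_contra h3
      exact h2 (x, _) ((mem_EE L).2 ⟨by have := h1 hx; simp only; omega, Or.inl rfl⟩) ⟨hx, hn⟩
    · have h3 : ∀ x ∈ X, x < (cl L).length := fun x hx =>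
        lt_of_le_of_ne (Nat.le_of_lt_succ (h1 hx)) fun h => hn (h ▸ hx)
      refine Or.inr ⟨h3, fun x hx => pr_mem L (h3 x hx), fun x hx y hy => ?_⟩
      by_contra h4
      exact h2 (x, y) ((mem_EE L).2 ⟨h3 x hx, Or.inr ⟨h3 y hy, by simpa using h4⟩⟩) ⟨hx, hy⟩
  · rintro (rfl | ⟨h1, -, h2⟩)
    · refine ⟨fun x hx => by rw [mem_singleton.1 hx]; omega, fun e he h => ?_⟩
      have := ((mem_EE L).1 he).1
      rw [mem_singleton.1 h.1] at this
      omega
    · refine ⟨fun x hx => (h1 hx).trans (Nat.lt_succ_self _), fun e he h => ?_⟩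
      obtain ⟨-, h3 | ⟨-, h3⟩⟩ := (mem_EE L).1 he
      · have := h1 h.2; omega
      · rw [h2 h.1 h.2] at h3; cases h3

theorem card_pre_Sel :
    ((range (cl L).length).powerset.filter fun X => X.image (pr L) ∈ Sel L).card =
      (Sel L).card * MM L ^ (gs L).length := by
  rw [card_pre L (Sel L) (filter_subset _ _),
    sum_congr rfl fun I hI => by rw [(mem_filter.1 hI).2],
    sum_const, smul_eq_mul]

theorem card_IS (h : vs L ≠ []) : ∃ r, 16 * r ≤ MM L ^ (gs L).length ∧ 0 < r ∧
    (IS (UU L).length (EE L)).card = (Sel L).card * MM L ^ (gs L).length + r := by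
  have hV : 0 < (vs L).length := List.length_pos_of_ne_nil h
  obtain ⟨a, ha⟩ := List.exists_mem_of_ne_nil _ h
  obtain ⟨k, hk⟩ : ∃ k, (gs L).length = k + 1 := Nat.exists_eq_succ_of_ne_zero
    (List.length_pos_of_mem (a := a.1) (List.mem_dedup.2 (List.mem_map.2
      ⟨a, (mem_vs.1 ha).1, rfl⟩))).ne'
  have hM : MM L + 1 = 2 ^ (vs L).length * 32 := by
    rw [MM, ofBits_true, kk, List.length_append, length_idx, pow_add]; rfl
  have h2 : 2 ^ 1 ≤ 2 ^ (vs L).length := Nat.pow_le_pow_right two_pos hV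
  have hM0 : 0 < MM L := by omega
  refine ⟨∑ I ∈ (Ind L).filter (fun I => ¬I.card = (gs L).length), MM L ^ I.card + 1, ?_,
    Nat.succ_pos _, ?_⟩
  · have h3 : ∑ I ∈ (Ind L).filter (fun I => ¬I.card = (gs L).length), MM L ^ I.card
        ≤ 2 ^ (vs L).length * MM L ^ k := by
      refine (sum_le_card_nsmul _ _ (MM L ^ k) fun I hI => ?_).trans ?_
      · have h4 := mem_filter.1 hI
        have h5 := card_le_of_Ind L h4.1
        exact Nat.pow_le_pow_right hM0 (by omega)
      · refine Nat.mul_le_mul_right _ ?_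
        refine (card_le_card ((filter_subset _ _).trans (filter_subset _ _))).trans ?_
        rw [card_powerset]
        exact Nat.pow_le_pow_right two_pos (List.toFinset_card_le _)
    have h4 : 1 ≤ MM L ^ k := Nat.pow_pos hM0
    have h5 : 16 * (2 ^ (vs L).length + 1) * MM L ^ k ≤ MM L * MM L ^ k :=
      Nat.mul_le_mul_right _ (by omega)
    have h6 : MM L ^ (gs L).length = MM L * MM L ^ k := by rw [hk, pow_succ']
    rw [h6]
    nlinarith
  · rw [IS_eq, card_insert_of_notMem (by simp), card_pre L _ Subset.rfl,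
      ← sum_filter_add_sum_filter_not (Ind L) (fun I => I.card = (gs L).length), ← card_pre_Sel,
      card_pre L (Sel L) (filter_subset _ _), add_assoc]
    rfl

theorem hh_card (h : vs L ≠ []) : hh L (IS (UU L).length (EE L)).card = (Sel L).card := by
  obtain ⟨r, h1, h2, h3⟩ := card_IS L h
  rw [hh, divRep_eq, h3]
  exact Nat.div_eq_of_lt_le (Nat.le_add_right _ _) (by rw [add_mul]; omega)

theorem ac_iff (X : List ℕ) : ac L X = true ↔ (JJ L X).toFinset ∈ Sel L := by
  have h1 : ∀ a ∈ JJ L X, a ∈ vs L := fun a ha => by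
    simp only [JJ, List.mem_dedup, List.mem_map, List.mem_filter, ltB_iff] at ha
    obtain ⟨x, hx, rfl⟩ := ha
    exact pr_mem L hx.2
  rw [Sel, mem_filter, mem_Ind, List.toFinset_card_of_nodup (l := JJ L X) (List.nodup_dedup _)]
  simp only [ac, Bool.and_eq_true, List.all_eq_true, Bool.not_eq_true', eqB_iff,
    List.mem_toFinset]
  exact ⟨fun h => ⟨⟨h1, h.1⟩, h.2⟩, fun h => ⟨h.1.2, h.2⟩⟩

theorem ac_many (h : vs L ≠ []) (h0 : 0 < (Sel L).card) :
    15 * (IS (UU L).length (EE L)).card ≤ 16 * ((IS (UU L).length (EE L)).filter fun X =>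
      ac L ((List.range (UU L).length).filter fun i => decide (i ∈ X)) = true).card := by
  obtain ⟨r, h1, -, h3⟩ := card_IS L h
  have h4 : (Sel L).card * MM L ^ (gs L).length ≤ ((IS (UU L).length (EE L)).filter fun X =>
      ac L ((List.range (UU L).length).filter fun i => decide (i ∈ X)) = true).card := by
    rw [← card_pre_Sel]
    refine card_le_card fun X hX => ?_
    obtain ⟨h5, h6⟩ := mem_filter.1 hX
    refine mem_filter.2 ⟨?_, (ac_iff L _).2 ?_⟩
    · rw [IS_eq]
      exact mem_insert_of_mem (mem_filter.2 ⟨h5, (mem_filter.1 h6).1⟩)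
    · have : (JJ L ((List.range (UU L).length).filter fun i => decide (i ∈ X))).toFinset
          = X.image (pr L) := by
        ext a
        simp only [JJ, List.mem_toFinset, List.mem_dedup, List.mem_map, List.mem_filter, ltB_iff,
          List.mem_range, decide_eq_true_eq, mem_image, length_UU]
        refine exists_congr fun x => and_congr_left' ⟨fun h => h.1.2, fun h => ?_⟩
        have := mem_range.1 (mem_powerset.1 h5 h)
        exact ⟨⟨by omega, h⟩, this⟩
      rw [this]; exact h6
  have h5 := Nat.le_mul_of_pos_left (MM L ^ (gs L).length) h0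
  omega

/-- Selections correspond to witnesses. -/
theorem card_Sel {W : Type} [DecidableEq W] (A : Finset W) (Γ : W → ℕ × ℕ → Prop)
    (hΓ : ∀ w p q, Γ w p → Γ w q → p.1 = q.1 → p.2 = q.2)
    (hex : ∀ w ∈ A, ∀ a ∈ L, ∃ b ∈ L, b.1 = a.1 ∧ ∀ p ∈ b.2, Γ w p)
    (hun : ∀ w, ∀ a ∈ L, ∀ b ∈ L, a.1 = b.1 → (∀ p ∈ a.2, Γ w p) → (∀ p ∈ b.2, Γ w p) → a = b)
    (hinj : ∀ w ∈ A, ∀ w' ∈ A, (∀ a ∈ L, (∀ p ∈ a.2, Γ w p) → ∀ p ∈ a.2, Γ w' p) → w = w')
    (hsur : ∀ Δ : ℕ × ℕ → Prop, (∀ p q, Δ p → Δ q → p.1 = q.1 → p.2 = q.2) →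
      (∀ a ∈ L, ∃ b ∈ L, b.1 = a.1 ∧ ∀ p ∈ b.2, Δ p) →
      ∃ w ∈ A, ∀ a ∈ L, (∀ p ∈ a.2, Δ p) → ∀ p ∈ a.2, Γ w p) :
    (Sel L).card = A.card := by
  classical
  let F : W → Finset Op := fun w => L.toFinset.filter fun a => ∀ p ∈ a.2, Γ w p
  have hF : ∀ w a, a ∈ F w ↔ a ∈ L ∧ ∀ p ∈ a.2, Γ w p := fun w a => by
    simp only [F, mem_filter, List.mem_toFinset]
  have hI : ∀ w, F w ∈ Ind L := fun w => by
    have h1 : ∀ a ∈ F w, ∀ b ∈ F w, inc a.2 b.2 = false := fun a ha b hb =>
      inc_false.2 fun p hp q hq => hΓ w p q (((hF w a).1 ha).2 p hp) (((hF w b).1 hb).2 q hq)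
    exact mem_Ind.2 ⟨fun a ha => mem_vs.2 ⟨((hF w a).1 ha).1, h1 a ha a ha⟩, fun a ha b hb =>
      bad_false.2 ⟨fun e => hun w a ((hF w a).1 ha).1 b ((hF w b).1 hb).1 e ((hF w a).1 ha).2
        ((hF w b).1 hb).2, h1 a ha b hb⟩⟩
  symm
  refine card_bij (fun w _ => F w) (fun w hw => mem_filter.2 ⟨hI w, ?_⟩)
    (fun w hw w' hw' e => hinj w hw w' hw' fun a ha h => ((hF w' a).1 (e ▸ (hF w a).2 ⟨ha, h⟩)).2)
    fun I hI' => ?_
  · rw [← (image_fst_subset L (hI w)).2, ← card_gs]
    congr 1
    refine Subset.antisymm (image_fst_subset L (hI w)).1 fun g hg => ?_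
    simp only [gs, List.mem_toFinset, List.mem_dedup, List.mem_map] at hg
    obtain ⟨a, ha, rfl⟩ := hg
    obtain ⟨b, hb, e, h⟩ := hex w hw a ha
    exact mem_image.2 ⟨b, (hF w b).2 ⟨hb, h⟩, e⟩
  · obtain ⟨h1, h2⟩ := mem_filter.1 hI'
    have h3 := mem_Ind.1 h1
    have h4 : I.image (fun a => a.1) = (gs L).toFinset :=
      eq_of_subset_of_card_le (image_fst_subset L h1).1
        (by rw [card_gs, (image_fst_subset L h1).2, h2])
    obtain ⟨w, hw, h5⟩ := hsur (fun p => ∃ a ∈ I, p ∈ a.2)
      (fun p q ⟨a, ha, hp⟩ ⟨b, hb, hq⟩ =>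
        inc_false.1 (bad_false.1 (h3.2 a ha b hb)).2 p hp q hq) fun a ha => by
        have : a.1 ∈ I.image fun a => a.1 := by
          rw [h4]
          simp only [gs, List.mem_toFinset, List.mem_dedup, List.mem_map]
          exact ⟨a, ha, rfl⟩
        obtain ⟨b, hb, e⟩ := mem_image.1 this
        exact ⟨b, (mem_vs.1 (h3.1 b hb)).1, e, fun p hp => ⟨b, hb, hp⟩⟩
    refine ⟨w, hw, (eq_of_subset_of_card_le (fun a ha => ?_) ?_).symm⟩
    · have := (mem_vs.1 (h3.1 a ha)).1
      exact (hF w a).2 ⟨this, h5 a this fun p hp => ⟨a, ha, hp⟩⟩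
    · rw [h2]; exact card_le_of_Ind L (hI w)

end Pool.Agent.MP_f00251_lc.Src

end MrgPart3

-- marker of a merged file
example : 731051 + 27583 = 731051 + 27583 := rfl
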